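import Pool.Agent.Helper3.DL.Defs
import Pool.Agent.Helper31.DL.Sc
import Pool.Agent.Helper31.DL.Spl

/-!
# DL-16: weighted mean values (MP_1f5042_nt)
-/

set_option autoImplicit false

namespace Pool.Agent.DL

open MeasureTheory Finset

namespace Mean

theorem norm_ee (t : ℝ) : ‖ee t‖ = 1 := by
  rw [ee, show (2 * Real.pi * t * Complex.I : ℂ) = ((2 * Real.pi * t : ℝ) : ℂ) * Complex.I by
    push_cast; ring]
  exact Complex.norm_exp_ofReal_mul_I _

theorem ee_add (s t : ℝ) : ee (s + t) = ee s * ee t := by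
  rw [ee, ee, ee, ← Complex.exp_add]
  congr 1
  push_cast
  ring

theorem ee_zero : ee 0 = 1 := by simp [ee]

theorem ee_sum {ι : Type} (S : Finset ι) (f : ι → ℝ) : ee (∑ i ∈ S, f i) = ∏ i ∈ S, ee (f i) := by
  classical
  induction S using Finset.induction_on with
  | empty => simp [ee_zero]
  | insert i S hi ih => rw [sum_insert hi, prod_insert hi, ee_add, ih]

theorem ee_neg (t : ℝ) : ee (-t) = (starRingEnd ℂ) (ee t) := by
  rw [ee, ee, ← Complex.exp_conj]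
  congr 1
  simp only [map_mul, Complex.conj_ofReal, Complex.conj_I, map_ofNat]
  push_cast
  ring

theorem continuous_ee : Continuous ee := by
  unfold ee
  fun_prop

/-- the one-dimensional factor -/
noncomputable def G (s : ℕ) (β D t : ℝ) : ℂ := ((sc (β * t) ^ (2 * s) : ℝ) : ℂ) * ee (t * D)

theorem integrable_G {s : ℕ} (hs : 1 ≤ s) {β : ℝ} (hβ : 0 < β) (D : ℝ) :
    Integrable (G s β D) := by
  have h1 : Integrable fun t : ℝ => sc (β * t) ^ (2 * s) :=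
    (integrable_sc_pow (p := 2 * s) (by omega)).comp_mul_left' hβ.ne'
  have h2 : Integrable fun t : ℝ => ((sc (β * t) ^ (2 * s) : ℝ) : ℂ) := h1.ofReal
  have h3 : Integrable fun t : ℝ => ee (t * D) * ((sc (β * t) ^ (2 * s) : ℝ) : ℂ) := by
    refine h2.bdd_mul (c := 1) ?_ ?_
    · exact (continuous_ee.comp (continuous_id.mul continuous_const)).aestronglyMeasurable
    · exact Filter.Eventually.of_forall fun t => (norm_ee _).le
  refine h3.congr (Filter.Eventually.of_forall fun t => ?_)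
  exact mul_comm _ _

theorem integral_G {s : ℕ} (hs : 1 ≤ s) {β : ℝ} (hβ : 0 < β) (D : ℝ) :
    ∫ t, G s β D t = ((β⁻¹ * spl (2 * s) (D / β) : ℝ) : ℂ) := by
  have h1 := Measure.integral_comp_mul_left
    (fun u : ℝ => ((sc u ^ (2 * s) : ℝ) : ℂ) * ee (u * (D / β))) β
  rw [spl_ft (by omega)] at h1
  have h2 : (fun t : ℝ => ((sc (β * t) ^ (2 * s) : ℝ) : ℂ) * ee (β * t * (D / β))) =
      G s β D := by
    funext t
    rw [G]
    congr 2
    field_simp
  rw [h2] at h1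
  rw [h1, abs_of_pos (inv_pos.2 hβ)]
  push_cast
  rw [Complex.real_smul]
  push_cast
  rfl

variable {m s : ℕ}

theorem SS_pow (e : Fin m → ℕ) (S : Finset ℕ) (a : ℕ → ℂ) (x : Fin m → ℝ) :
    SS e S a x ^ s = ∑ p ∈ Fintype.piFinset (fun _ : Fin s => S),
      (∏ l, a (p l)) * ee (∑ i, x i * ∑ l, (p l : ℝ) ^ e i) := by
  have h1 : SS e S a x ^ s = ∏ _l : Fin s, SS e S a x := by
    rw [prod_const, card_univ, Fintype.card_fin]
  rw [h1]
  unfold SS
  rw [Finset.prod_univ_sum]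
  refine sum_congr rfl fun p _ => ?_
  rw [prod_mul_distrib, ← ee_sum]
  congr 2
  rw [sum_comm]
  refine sum_congr rfl fun i _ => ?_
  rw [mul_sum]

/-- the expansion of the integrand -/
theorem expand (e : Fin m → ℕ) (b : Fin m → ℝ) (S : Finset ℕ) (a : ℕ → ℂ)
    (c x : Fin m → ℝ) :
    ((‖SS e S a x * (Psi b x : ℂ)‖ ^ (2 * s) : ℝ) : ℂ) * ee (-dot x c) =
      ∑ p ∈ Fintype.piFinset (fun _ : Fin s => S), ∑ q ∈ Fintype.piFinset (fun _ : Fin s => S),
        ((∏ l, a (p l)) * (starRingEnd ℂ) (∏ l, a (q l))) *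
          ∏ i, G s (b i) ((∑ l, (p l : ℝ) ^ e i) - (∑ l, (q l : ℝ) ^ e i) - c i) (x i) := by
  have h1 : ((‖SS e S a x * (Psi b x : ℂ)‖ ^ (2 * s) : ℝ) : ℂ) =
      SS e S a x ^ s * (starRingEnd ℂ) (SS e S a x ^ s) *
        ((∏ i, sc (b i * x i) ^ (2 * s) : ℝ) : ℂ) := by
    have h2 : ((‖SS e S a x * (Psi b x : ℂ)‖ ^ 2 : ℝ) : ℂ) =
        SS e S a x * (starRingEnd ℂ) (SS e S a x) * ((Psi b x : ℝ) : ℂ) ^ 2 := by
      rw [← Complex.normSq_eq_norm_sq, ← Complex.mul_conj, map_mul, Complex.conj_ofReal]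
      ring
    rw [pow_mul, Complex.ofReal_pow, h2, mul_pow, mul_pow, map_pow, ← pow_mul]
    congr 1
    rw [Psi, ← Complex.ofReal_pow, ← prod_pow]
  rw [h1, SS_pow, map_sum, sum_mul_sum, sum_mul, sum_mul]
  refine sum_congr rfl fun p _ => ?_
  rw [sum_mul, sum_mul]
  refine sum_congr rfl fun q _ => ?_
  have h3 : ∏ i, G s (b i) ((∑ l, (p l : ℝ) ^ e i) - (∑ l, (q l : ℝ) ^ e i) - c i) (x i) =
      ((∏ i, sc (b i * x i) ^ (2 * s) : ℝ) : ℂ) *
        (ee (∑ i, x i * ∑ l, (p l : ℝ) ^ e i) *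
          ((starRingEnd ℂ) (ee (∑ i, x i * ∑ l, (q l : ℝ) ^ e i)) * ee (-dot x c))) := by
    unfold G
    rw [prod_mul_distrib, ← ee_sum, ← ee_neg, ← ee_add, ← ee_add, Complex.ofReal_prod]
    congr 2
    rw [dot, ← sum_neg_distrib, ← sum_neg_distrib, ← sum_add_distrib, ← sum_add_distrib]
    refine sum_congr rfl fun i _ => ?_
    ring
  rw [h3, map_mul]
  ring

theorem integrable_term (hs : 1 ≤ s) (b : Fin m → ℝ) (hb : ∀ i, 0 < b i) (D : Fin m → ℝ) :
    Integrable fun x : Fin m → ℝ => ∏ i, G s (b i) (D i) (x i) :=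
  Integrable.fintype_prod (f := fun i t => G s (b i) (D i) t) fun i => integrable_G hs (hb i) (D i)

theorem integral_term (hs : 1 ≤ s) (b : Fin m → ℝ) (hb : ∀ i, 0 < b i) (D : Fin m → ℝ) :
    ∫ x : Fin m → ℝ, ∏ i, G s (b i) (D i) (x i) =
      ((∏ i, (b i)⁻¹ * spl (2 * s) (D i / b i) : ℝ) : ℂ) := by
  rw [integral_fintype_prod_volume_eq_prod (f := fun i t => G s (b i) (D i) t), Complex.ofReal_prod]
  exact prod_congr rfl fun i _ => integral_G hs (hb i) (D i)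

/-- the integrated expansion -/
theorem integral_expand (hs : 1 ≤ s) (e : Fin m → ℕ) (b : Fin m → ℝ) (hb : ∀ i, 0 < b i)
    (S : Finset ℕ) (a : ℕ → ℂ) (c : Fin m → ℝ) :
    Integrable (fun x => ((‖SS e S a x * (Psi b x : ℂ)‖ ^ (2 * s) : ℝ) : ℂ) * ee (-dot x c)) ∧
    ∫ x, ((‖SS e S a x * (Psi b x : ℂ)‖ ^ (2 * s) : ℝ) : ℂ) * ee (-dot x c) =
      ∑ p ∈ Fintype.piFinset (fun _ : Fin s => S), ∑ q ∈ Fintype.piFinset (fun _ : Fin s => S),
        ((∏ l, a (p l)) * (starRingEnd ℂ) (∏ l, a (q l))) *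
          ((∏ i, (b i)⁻¹ * spl (2 * s)
            (((∑ l, (p l : ℝ) ^ e i) - (∑ l, (q l : ℝ) ^ e i) - c i) / b i) : ℝ) : ℂ) := by
  simp only [expand]
  constructor
  · exact integrable_finsetSum _ fun p _ => integrable_finsetSum _ fun q _ =>
      (integrable_term hs b hb _).const_mul _
  · rw [integral_finsetSum _ fun p _ => integrable_finsetSum _ fun q _ =>
      (integrable_term hs b hb _).const_mul _]
    refine sum_congr rfl fun p _ => ?_
    rw [integral_finsetSum _ fun q _ => (integrable_term hs b hb _).const_mul _]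
    refine sum_congr rfl fun q _ => ?_
    rw [integral_const_mul]
    congr 1
    exact integral_term hs b hb _

theorem integrable_real (hs : 1 ≤ s) (e : Fin m → ℕ) (b : Fin m → ℝ) (hb : ∀ i, 0 < b i)
    (S : Finset ℕ) (a : ℕ → ℂ) :
    Integrable (fun x => ‖SS e S a x * (Psi b x : ℂ)‖ ^ (2 * s)) := by
  have h1 := (integral_expand hs e b hb S a 0).1.norm
  refine h1.congr (Filter.Eventually.of_forall fun x => ?_)
  show ‖((‖SS e S a x * (Psi b x : ℂ)‖ ^ (2 * s) : ℝ) : ℂ) * ee (-dot x 0)‖ = _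
  rw [norm_mul, norm_ee, mul_one, Complex.norm_real, Real.norm_of_nonneg (by positivity)]

theorem QQ_eq (hs : 1 ≤ s) (e : Fin m → ℕ) (b : Fin m → ℝ) (hb : ∀ i, 0 < b i)
    (S : Finset ℕ) (a : ℕ → ℂ) :
    QQ s e b S a = ENNReal.ofReal (∫ x, ‖SS e S a x * (Psi b x : ℂ)‖ ^ (2 * s)) := by
  rw [ofReal_integral_eq_lintegral_ofReal (integrable_real hs e b hb S a)
    (Filter.Eventually.of_forall fun x => by positivity), QQ]
  refine lintegral_congr fun x => ?_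
  rw [ENNReal.ofReal_pow (norm_nonneg _), ofReal_norm]

end Mean

open Mean

theorem QQ_expand {m s : ℕ} (hs : 1 ≤ s) (e : Fin m → ℕ) (b : Fin m → ℝ)
    (hb : ∀ i, 0 < b i) (S : Finset ℕ) (a : ℕ → ℂ) :
    QQ s e b S a = ENNReal.ofReal (∑ p ∈ Fintype.piFinset (fun _ : Fin s => S),
      ∑ q ∈ Fintype.piFinset (fun _ : Fin s => S),
        ((∏ l, a (p l)) * (starRingEnd ℂ) (∏ l, a (q l)) *
          ((∏ i, (b i)⁻¹ * spl (2 * s) (((∑ l, (p l : ℝ) ^ e i) - ∑ l, (q l : ℝ) ^ e i) / b i) :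
            ℝ) : ℂ))).re := by
  rw [QQ_eq hs e b hb]
  congr 1
  have h1 := (integral_expand hs e b hb S a 0).2
  have h2 : ∀ x : Fin m → ℝ, ee (-dot x 0) = 1 := fun x => by simp [dot, ee_zero]
  simp only [h2, mul_one, Pi.zero_apply, sub_zero] at h1
  rw [← h1, integral_complex_ofReal, Complex.ofReal_re]

theorem QQ_shift {m s : ℕ} (hs : 1 ≤ s) (e : Fin m → ℕ) (b : Fin m → ℝ)
    (hb : ∀ i, 0 < b i) (S : Finset ℕ) (a : ℕ → ℂ) (c : Fin m → ℝ) :
    ENNReal.ofReal ‖∑ p ∈ Fintype.piFinset (fun _ : Fin s => S),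
      ∑ q ∈ Fintype.piFinset (fun _ : Fin s => S),
        ((∏ l, a (p l)) * (starRingEnd ℂ) (∏ l, a (q l)) *
          ((∏ i, (b i)⁻¹ * spl (2 * s)
            (((∑ l, (p l : ℝ) ^ e i) - (∑ l, (q l : ℝ) ^ e i) - c i) / b i) : ℝ) : ℂ))‖ ≤
      QQ s e b S a := by
  rw [QQ_eq hs e b hb, ← (integral_expand hs e b hb S a c).2]
  refine ENNReal.ofReal_le_ofReal ((norm_integral_le_integral_norm _).trans (le_of_eq ?_))
  refine integral_congr_ae (Filter.Eventually.of_forall fun x => ?_)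
  show ‖((‖SS e S a x * (Psi b x : ℂ)‖ ^ (2 * s) : ℝ) : ℂ) * ee (-dot x c)‖ = _
  rw [norm_mul, norm_ee, mul_one, Complex.norm_real, Real.norm_of_nonneg (by positivity)]

theorem QQ_abs {m s : ℕ} (hs : 1 ≤ s) (e : Fin m → ℕ) (b : Fin m → ℝ)
    (hb : ∀ i, 0 < b i) (S : Finset ℕ) (a : ℕ → ℂ) :
    QQ s e b S a ≤ QQ s e b S (fun j => (‖a j‖ : ℂ)) := by
  rw [QQ_expand hs e b hb, QQ_expand hs e b hb]
  refine ENNReal.ofReal_le_ofReal ?_
  rw [Complex.re_sum, Complex.re_sum]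
  refine sum_le_sum fun p _ => ?_
  rw [Complex.re_sum, Complex.re_sum]
  refine sum_le_sum fun q _ => ?_
  have hw : 0 ≤ ∏ i, (b i)⁻¹ * spl (2 * s)
      (((∑ l, (p l : ℝ) ^ e i) - ∑ l, (q l : ℝ) ^ e i) / b i) :=
    prod_nonneg fun i _ => mul_nonneg (inv_nonneg.2 (hb i).le) (spl_nonneg (by omega) _)
  have h1 : (∏ l, ((‖a (p l)‖ : ℝ) : ℂ)) * (starRingEnd ℂ) (∏ l, ((‖a (q l)‖ : ℝ) : ℂ)) =
      ((‖(∏ l, a (p l)) * (starRingEnd ℂ) (∏ l, a (q l))‖ : ℝ) : ℂ) := by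
    rw [norm_mul, RCLike.norm_conj, norm_prod, norm_prod, ← Complex.ofReal_prod,
      ← Complex.ofReal_prod, Complex.conj_ofReal, Complex.ofReal_mul]
  rw [h1, ← Complex.ofReal_mul, Complex.ofReal_re, Complex.re_mul_ofReal]
  exact mul_le_mul_of_nonneg_right (Complex.re_le_norm _) hw

theorem QQ_trivial {m s : ℕ} (hs : 1 ≤ s) (e : Fin m → ℕ) (b : Fin m → ℝ)
    (hb : ∀ i, 0 < b i) (S : Finset ℕ) (a : ℕ → ℂ) :
    QQ s e b S a ≤ ENNReal.ofReal ((S.card * ∑ j ∈ S, ‖a j‖ ^ 2) ^ s * ∏ i, (b i)⁻¹) := by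
  rw [QQ_eq hs e b hb]
  refine ENNReal.ofReal_le_ofReal ?_
  have hint : Integrable fun x : Fin m → ℝ => ∏ i, sc (b i * x i) ^ (2 * s) :=
    Integrable.fintype_prod (f := fun i t => sc (b i * t) ^ (2 * s)) fun i =>
      (integrable_sc_pow (p := 2 * s) (by omega)).comp_mul_left' (hb i).ne'
  have h1 : ∀ x : Fin m → ℝ, ‖SS e S a x * (Psi b x : ℂ)‖ ^ (2 * s) ≤
      (S.card * ∑ j ∈ S, ‖a j‖ ^ 2) ^ s * ∏ i, sc (b i * x i) ^ (2 * s) := by
    intro x
    have h2 : ‖SS e S a x‖ ^ 2 ≤ S.card * ∑ j ∈ S, ‖a j‖ ^ 2 := by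
      have h3 : ‖SS e S a x‖ ≤ ∑ j ∈ S, ‖a j‖ := by
        unfold SS
        refine (norm_sum_le _ _).trans (le_of_eq (sum_congr rfl fun j _ => ?_))
        rw [norm_mul, norm_ee, mul_one]
      calc ‖SS e S a x‖ ^ 2 ≤ (∑ j ∈ S, ‖a j‖) ^ 2 := by
            exact pow_le_pow_left₀ (norm_nonneg _) h3 2
        _ ≤ S.card * ∑ j ∈ S, ‖a j‖ ^ 2 := sq_sum_le_card_mul_sum_sq
    rw [norm_mul, mul_pow, pow_mul, Complex.norm_real, Real.norm_eq_abs,
      Even.pow_abs (even_two_mul s), Psi, ← prod_pow]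
    refine mul_le_mul_of_nonneg_right (pow_le_pow_left₀ (by positivity) h2 s) ?_
    exact prod_nonneg fun i _ => Even.pow_nonneg (even_two_mul s) _
  refine (integral_mono (integrable_real hs e b hb S a) (hint.const_mul _) h1).trans ?_
  rw [integral_const_mul]
  refine mul_le_mul_of_nonneg_left ?_ (by positivity)
  rw [integral_fintype_prod_volume_eq_prod (f := fun i t => sc (b i * t) ^ (2 * s))]
  refine prod_le_prod (fun i _ => integral_nonneg fun t => Even.pow_nonneg (even_two_mul s) _)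
    fun i _ => ?_
  have h4 : (∫ t : ℝ, sc (b i * t) ^ (2 * s)) = (b i)⁻¹ * spl (2 * s) 0 := by
    have h5 := integral_G hs (hb i) 0
    have h6 : ∀ t, G s (b i) 0 t = ((sc (b i * t) ^ (2 * s) : ℝ) : ℂ) := fun t => by
      rw [G, mul_zero, ee_zero, mul_one]
    simp only [h6, zero_div] at h5
    rw [integral_complex_ofReal] at h5
    exact_mod_cast h5
  rw [h4]
  exact mul_le_of_le_one_right (inv_nonneg.2 (hb i).le) (spl_le (by omega) _)

end Pool.Agent.DL
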